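import Mathlib
import Pool.Agent.W187.WQ.Stmts5
import Pool.Agent.W187.WP.Poly

/-!
# The archimedean kernel to 20 digits
-/

open Pool.Agent.W187.WP Pool.Agent.W187.WQ

namespace Pool.Agent.W272.WQ

/-- coefficients of `a + (x + c) p(x)` -/
def stp (c : ℚ) : ℚ → List ℚ → List ℚ
  | a, [] => [a]
  | a, b :: p => (a + c * b) :: stp c b p

theorem ev_stp (c : ℚ) : ∀ (p : List ℚ) (a : ℚ) (x : ℝ),
    ev (stp c a p) x = (a : ℝ) + (x + (c : ℝ)) * ev p x
  | [], a, x => by simp [stp]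
  | b :: p, a, x => by
      simp only [stp, ev_cons, ev_stp c p b x]
      push_cast; ring

/-- Taylor shift: coefficients of `p (x + c)` -/
def shl (c : ℚ) : List ℚ → List ℚ
  | [] => []
  | a :: l => stp c a (shl c l)

theorem ev_shl (c : ℚ) : ∀ (p : List ℚ) (x : ℝ), ev (shl c p) x = ev p (x + (c : ℝ))
  | [], x => by simp [shl]
  | a :: p, x => by
      simp only [shl, ev_stp, ev_shl c p x, ev_cons]

/-- sum of the absolute values of the coefficients times powers of `h` -/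
def nrm (h : ℚ) : List ℚ → ℚ
  | [] => 0
  | a :: l => |a| + h * nrm h l

theorem nrm_nonneg (h : ℚ) (hh : 0 ≤ h) : ∀ p : List ℚ, 0 ≤ nrm h p
  | [] => le_refl _
  | a :: l => by
      have := nrm_nonneg h hh l
      have h1 : 0 ≤ |a| := abs_nonneg a
      show 0 ≤ |a| + h * nrm h l
      positivity

theorem abs_ev_le (h : ℚ) (hh : 0 ≤ h) : ∀ (p : List ℚ) (x : ℝ), |x| ≤ (h : ℝ) →
    |ev p x| ≤ ((nrm h p : ℚ) : ℝ)
  | [], x, _ => by simp [nrm]
  | a :: p, x, hx => by
      have ih := abs_ev_le h hh p x hx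
      have h0 : (0 : ℝ) ≤ (h : ℝ) := by exact_mod_cast hh
      simp only [ev_cons, nrm]
      push_cast
      have h1 : |(a : ℝ) + x * ev p x| ≤ |(a : ℝ)| + |x * ev p x| := abs_add_le _ _
      rw [abs_mul] at h1
      have h2 : |x| * |ev p x| ≤ (h : ℝ) * ((nrm h p : ℚ) : ℝ) :=
        mul_le_mul hx ih (abs_nonneg _) h0
      linarith

/-- bound on an interval with centre `c` and radius `h` -/
theorem abs_ev_le' (c h B : ℚ) (hh : 0 ≤ h) (p : List ℚ) (hB : nrm h (shl c p) ≤ B) (x : ℝ)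
    (hx : |x - (c : ℝ)| ≤ (h : ℝ)) : |ev p x| ≤ (B : ℝ) := by
  have h1 := abs_ev_le h hh (shl c p) (x - (c : ℝ)) hx
  rw [ev_shl, sub_add_cancel] at h1
  have h2 : ((nrm h (shl c p) : ℚ) : ℝ) ≤ (B : ℝ) := by exact_mod_cast hB
  exact h1.trans h2

/-- Taylor coefficients of `exp (c x)`, from index `k` on with first coefficient `t` -/
def exl (c : ℚ) : ℕ → ℕ → ℚ → List ℚ
  | 0, _, _ => []
  | n + 1, k, t => t :: exl c n (k + 1) (t * c / ((k : ℚ) + 1))

theorem ev_exl (c : ℚ) : ∀ (n k : ℕ) (t : ℚ) (x : ℝ),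
    (t : ℝ) = (c : ℝ) ^ k / (k.factorial : ℝ) →
    x ^ k * ev (exl c n k t) x =
      ∑ m ∈ Finset.range n, ((c : ℝ) * x) ^ (k + m) / ((k + m).factorial : ℝ)
  | 0, k, t, x, _ => by simp [exl]
  | n + 1, k, t, x, ht => by
      have h1 : ((t * c / ((k : ℚ) + 1) : ℚ) : ℝ) = (c : ℝ) ^ (k + 1) / ((k + 1).factorial : ℝ) := by
        push_cast
        rw [ht, Nat.factorial_succ]
        have : ((k.factorial : ℕ) : ℝ) ≠ 0 := by exact_mod_cast Nat.factorial_ne_zero k
        have h2 : ((k : ℝ) + 1) ≠ 0 := by positivity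
        push_cast
        field_simp
        ring
      have ih := ev_exl c n (k + 1) _ x h1
      have e1 : ∑ m ∈ Finset.range n, ((c : ℝ) * x) ^ (k + (m + 1)) / ((k + (m + 1)).factorial : ℝ)
          = ∑ m ∈ Finset.range n, ((c : ℝ) * x) ^ (k + 1 + m) / ((k + 1 + m).factorial : ℝ) := by
        refine Finset.sum_congr rfl fun m _ => ?_
        have : k + (m + 1) = k + 1 + m := by ring
        rw [this]
      rw [Finset.sum_range_succ', e1, ← ih]
      simp only [exl, ev_cons, Nat.add_zero]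
      rw [ht]
      ring

theorem ev_exl0 (c : ℚ) (n : ℕ) (x : ℝ) :
    ev (exl c n 0 1) x = ∑ m ∈ Finset.range n, ((c : ℝ) * x) ^ m / (m.factorial : ℝ) := by
  have h := ev_exl c n 0 1 x (by simp)
  simpa using h

theorem exp_tay (n : ℕ) (y : ℝ) (hy : |y| / ((n : ℝ) + 1) ≤ 1 / 2) :
    |Real.exp y - ∑ m ∈ Finset.range n, y ^ m / (m.factorial : ℝ)| ≤
      |y| ^ n / (n.factorial : ℝ) * 2 := by
  have h := Complex.exp_bound' (x := (y : ℂ)) (n := n) (by
    rw [Complex.norm_real, Real.norm_eq_abs]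
    simpa using hy)
  have e1 : Complex.exp (y : ℂ) - ∑ m ∈ Finset.range n, (y : ℂ) ^ m / (m.factorial : ℂ) =
      ((Real.exp y - ∑ m ∈ Finset.range n, y ^ m / (m.factorial : ℝ) : ℝ) : ℂ) := by
    push_cast
    rfl
  rw [e1, Complex.norm_real, Complex.norm_real, Real.norm_eq_abs, Real.norm_eq_abs] at h
  exact h

/-- Taylor polynomial of `sinh (a s)` -/
def SS (a : ℚ) (n : ℕ) : List ℚ :=
  psm (1 / 2) (padd (exl a n 0 1) (psm (-1) (exl (-a) n 0 1)))

/-- the polynomial `a s T(s) - S(s) - s S(s) b(s)` -/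
def PP (a : ℚ) (n : ℕ) (bt : List ℚ) : List ℚ :=
  padd (padd (0 :: psm a (exl (a / 2) n 0 1)) (psm (-1) (SS a n)))
    (psm (-1) (0 :: pmul bt (SS a n)))

def RR : List ℚ := (PP p5.a 32 p5.bt).drop 2

def B0 : ℚ := 5 / 10 ^ 21 * p5.a

set_option maxRecDepth 100000 in
theorem chk_take : (PP p5.a 32 p5.bt).take 2 = [0, 0] := by decide +kernel

set_option maxRecDepth 100000 in
theorem chk1 : nrm (1 / 8) (shl (1 / 8) RR) ≤ B0 := by decide +kernel

set_option maxRecDepth 100000 in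
theorem chk2 : nrm (1 / 8) (shl (3 / 8) RR) ≤ B0 := by decide +kernel

set_option maxRecDepth 100000 in
theorem chk3 : nrm (1 / 4) (shl (3 / 4) RR) ≤ B0 := by decide +kernel

set_option maxRecDepth 100000 in
theorem chk4 : nrm (1 / 4) (shl (5 / 4) RR) ≤ B0 := by decide +kernel

set_option maxRecDepth 100000 in
theorem chk5 : nrm (1 / 8) (shl (13 / 8) RR) ≤ B0 := by decide +kernel

set_option maxRecDepth 100000 in
theorem chk6 : nrm (1 / 8) (shl (15 / 8) RR) ≤ B0 := by decide +kernel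

set_option maxRecDepth 100000 in
theorem chk7 : nrm 2 p5.bt ≤ 1 := by decide +kernel

theorem RR_le (s : ℝ) (h0 : 0 < s) (h2 : s ≤ 2) : |ev RR s| ≤ (B0 : ℝ) := by
  rcases le_total s (1 / 4) with h | h
  · exact abs_ev_le' _ _ _ (by norm_num) RR chk1 s (by rw [abs_le]; push_cast; constructor <;> linarith)
  rcases le_total s (1 / 2) with h' | h'
  · exact abs_ev_le' _ _ _ (by norm_num) RR chk2 s (by rw [abs_le]; push_cast; constructor <;> linarith)
  rcases le_total s 1 with h'' | h''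
  · exact abs_ev_le' _ _ _ (by norm_num) RR chk3 s (by rw [abs_le]; push_cast; constructor <;> linarith)
  rcases le_total s (3 / 2) with h3 | h3
  · exact abs_ev_le' _ _ _ (by norm_num) RR chk4 s (by rw [abs_le]; push_cast; constructor <;> linarith)
  rcases le_total s (7 / 4) with h4 | h4
  · exact abs_ev_le' _ _ _ (by norm_num) RR chk5 s (by rw [abs_le]; push_cast; constructor <;> linarith)
  · exact abs_ev_le' _ _ _ (by norm_num) RR chk6 s (by rw [abs_le]; push_cast; constructor <;> linarith)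

theorem PP_eq (s : ℝ) : ev (PP p5.a 32 p5.bt) s = s ^ 2 * ev RR s := by
  have h := List.take_append_drop 2 (PP p5.a 32 p5.bt)
  rw [chk_take] at h
  rw [← h]
  show ev (0 :: 0 :: RR) s = s ^ 2 * ev RR s
  simp only [ev_cons]
  push_cast; ring

theorem ev_SS (a : ℚ) (n : ℕ) (s : ℝ) : ev (SS a n) s =
    1 / 2 * (∑ m ∈ Finset.range n, ((a : ℝ) * s) ^ m / (m.factorial : ℝ) -
      ∑ m ∈ Finset.range n, (-((a : ℝ) * s)) ^ m / (m.factorial : ℝ)) := by
  simp only [SS, ev_psm, ev_padd, ev_exl0]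
  push_cast
  simp only [neg_mul, one_mul]
  ring

theorem n2_5 : S_N2_5 := by
  intro s h0 h2
  have ha : ((p5.a : ℚ) : ℝ) = 10059 / 12500 := by
    simp only [p5]; push_cast; norm_num
  set a : ℝ := 10059 / 12500 with hadef
  have hapos : 0 < a := by rw [hadef]; norm_num
  set b : ℝ := ev p5.bt s with hb
  set T : ℝ := ∑ m ∈ Finset.range 32, (a * s / 2) ^ m / (m.factorial : ℝ) with hT
  set E1 : ℝ := ∑ m ∈ Finset.range 32, (a * s) ^ m / (m.factorial : ℝ) with hE1
  set E2 : ℝ := ∑ m ∈ Finset.range 32, (-(a * s)) ^ m / (m.factorial : ℝ) with hE2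
  have hy : 0 < a * s := by positivity
  have hy2 : a * s ≤ 161 / 100 := by rw [hadef]; linarith
  have hPP : ev (PP p5.a 32 p5.bt) s = a * s * T - 1 / 2 * (E1 - E2) - s * (1 / 2 * (E1 - E2)) * b := by
    simp only [PP, ev_padd, ev_psm, ev_cons, ev_pmul, ev_SS, ev_exl0, ha]
    have : ((p5.a / 2 : ℚ) : ℝ) * s = a * s / 2 := by push_cast; rw [ha]; ring
    rw [this]
    push_cast
    ring
  -- Taylor errors
  set d : ℝ := (a * s) ^ 32 / ((32 : ℕ).factorial : ℝ) * 2 with hd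
  have t1 : |Real.exp (a * s) - E1| ≤ d := by
    have := exp_tay 32 (a * s) (by rw [abs_of_pos hy]; norm_num; linarith)
    rwa [abs_of_pos hy] at this
  have t2 : |Real.exp (-(a * s)) - E2| ≤ d := by
    have := exp_tay 32 (-(a * s)) (by rw [abs_neg, abs_of_pos hy]; norm_num; linarith)
    rwa [abs_neg, abs_of_pos hy] at this
  have t3 : |Real.exp (a * s / 2) - T| ≤ d := by
    have hp : 0 < a * s / 2 := by positivity
    have h := exp_tay 32 (a * s / 2) (by rw [abs_of_pos hp]; norm_num; linarith)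
    rw [abs_of_pos hp] at h
    refine h.trans ?_
    rw [hd]
    have : (a * s / 2) ^ 32 ≤ (a * s) ^ 32 := by
      apply pow_le_pow_left₀ (by positivity)
      linarith
    gcongr
  have hsinh : |Real.sinh (a * s) - 1 / 2 * (E1 - E2)| ≤ d := by
    rw [Real.sinh_eq]
    have e : (Real.exp (a * s) - Real.exp (-(a * s))) / 2 - 1 / 2 * (E1 - E2) =
      1 / 2 * (Real.exp (a * s) - E1) - 1 / 2 * (Real.exp (-(a * s)) - E2) := by ring
    rw [e]
    have := abs_sub (1 / 2 * (Real.exp (a * s) - E1)) (1 / 2 * (Real.exp (-(a * s)) - E2))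
    rw [abs_mul, abs_mul, abs_of_pos (by norm_num : (0 : ℝ) < 1 / 2)] at this
    linarith
  have hbb : |b| ≤ 1 := by
    have := abs_ev_le 2 (by norm_num) p5.bt s (by rw [abs_of_pos h0]; exact_mod_cast h2)
    refine this.trans ?_
    exact_mod_cast chk7
  have hRR := RR_le s h0 h2
  have hB0 : ((B0 : ℚ) : ℝ) = 5 / 10 ^ 21 * a := by
    simp only [B0]; push_cast; rw [ha]
  rw [hB0] at hRR
  have hdle : d ≤ s ^ 2 * (1 / 10 ^ 22) := by
    have e : (a * s) ^ 32 = s ^ 2 * (a ^ 2 * (a * s) ^ 30) := by ring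
    have h3 : (a * s) ^ 30 ≤ (161 / 100) ^ 30 := pow_le_pow_left₀ hy.le hy2 30
    have h4 : a ^ 2 ≤ 1 := by rw [hadef]; norm_num
    have h5 : a ^ 2 * (a * s) ^ 30 ≤ 1 * (161 / 100) ^ 30 :=
      mul_le_mul h4 h3 (by positivity) (by norm_num)
    rw [hd, e]
    have h6 : a ^ 2 * (a * s) ^ 30 / ((32 : ℕ).factorial : ℝ) * 2 ≤ 1 / 10 ^ 22 := by
      have h7 : a ^ 2 * (a * s) ^ 30 / ((32 : ℕ).factorial : ℝ) * 2 ≤
        1 * (161 / 100) ^ 30 / ((32 : ℕ).factorial : ℝ) * 2 := by gcongr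
      refine h7.trans ?_
      norm_num [Nat.factorial]
    have h8 : s ^ 2 * (a ^ 2 * (a * s) ^ 30) / ((32 : ℕ).factorial : ℝ) * 2 =
      s ^ 2 * (a ^ 2 * (a * s) ^ 30 / ((32 : ℕ).factorial : ℝ) * 2) := by ring
    rw [h8]
    exact mul_le_mul_of_nonneg_left h6 (by positivity)
  -- the numerator
  have hsh : a * s ≤ Real.sinh (a * s) := Real.self_le_sinh_iff.mpr hy.le
  have hshpos : 0 < Real.sinh (a * s) := lt_of_lt_of_le hy hsh
  set N : ℝ := a * s * Real.exp (a * s / 2) - Real.sinh (a * s) - s * Real.sinh (a * s) * b with hN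
  have hNle : |N| ≤ s ^ 2 * (a * (1 / 10 ^ 20)) := by
    have e : N = s ^ 2 * ev RR s + a * s * (Real.exp (a * s / 2) - T) -
        (Real.sinh (a * s) - 1 / 2 * (E1 - E2)) - s * b * (Real.sinh (a * s) - 1 / 2 * (E1 - E2)) := by
      rw [← PP_eq, hPP, hN]; ring
    have k1 : |s ^ 2 * ev RR s| ≤ s ^ 2 * (5 / 10 ^ 21 * a) := by
      rw [abs_mul, abs_of_pos (by positivity : (0 : ℝ) < s ^ 2)]
      exact mul_le_mul_of_nonneg_left hRR (by positivity)
    have k2 : |a * s * (Real.exp (a * s / 2) - T)| ≤ 2 * d := by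
      rw [abs_mul, abs_of_pos hy]
      exact mul_le_mul (hy2.trans (by norm_num)) t3 (abs_nonneg _) (by norm_num)
    have k3 : |s * b * (Real.sinh (a * s) - 1 / 2 * (E1 - E2))| ≤ 2 * d := by
      rw [abs_mul, abs_mul, abs_of_pos h0]
      refine mul_le_mul ?_ hsinh (abs_nonneg _) (by norm_num)
      nlinarith [abs_nonneg b]
    have k4 : |N| ≤ |s ^ 2 * ev RR s| + |a * s * (Real.exp (a * s / 2) - T)| +
        |Real.sinh (a * s) - 1 / 2 * (E1 - E2)| +
        |s * b * (Real.sinh (a * s) - 1 / 2 * (E1 - E2))| := by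
      rw [e]
      refine (abs_sub _ _).trans ?_
      gcongr
      refine (abs_sub _ _).trans ?_
      gcongr
      exact abs_add_le _ _
    have k5 : |N| ≤ s ^ 2 * (5 / 10 ^ 21 * a) + 5 * d := by linarith
    have hs2 : 0 < s ^ 2 := by positivity
    rw [hadef] at k5 ⊢
    nlinarith
  have hE : a * Real.exp (a * s / 2) / Real.sinh (a * s) - 1 / s - b = N / (s * Real.sinh (a * s)) := by
    rw [hN]
    field_simp
  rw [hE, abs_div, abs_of_pos (by positivity : 0 < s * Real.sinh (a * s)), div_le_iff₀ (by positivity)]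
  refine hNle.trans ?_
  have h9 : s * (a * s) ≤ s * Real.sinh (a * s) := mul_le_mul_of_nonneg_left hsh h0.le
  calc s ^ 2 * (a * (1 / 10 ^ 20)) = 1 / 10 ^ 20 * (s * (a * s)) := by ring
    _ ≤ 1 / 10 ^ 20 * (s * Real.sinh (a * s)) := mul_le_mul_of_nonneg_left h9 (by norm_num)

end Pool.Agent.W272.WQ
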